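import Pool.Agent.helper29.NS.SpecC

set_option autoImplicit false

namespace NS

open MeasureTheory Filter Topology Set

theorem KF_f (R : ℝ) (hR : 0 < R) : ∃ f : ℝ → ℝ, ContDiff ℝ 2 f ∧
    (∀ s, |s| < R / 4 → f s = R - Real.sqrt (R ^ 2 - s ^ 2)) ∧ 0 < deriv (deriv f) 0 := by
  let χ : ContDiffBump (0 : ℝ) := ⟨R / 4, R / 2, by positivity, by linarith⟩
  have hχ0 : ∀ s, 0 ≤ χ s := fun s => χ.nonneg
  have hχ1 : ∀ s, χ s ≤ 1 := fun s => χ.le_one
  have hχs : ∀ s, |s| < R / 4 → χ s = 1 := by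
    intro s hs
    apply χ.one_of_mem_closedBall
    rw [Metric.mem_closedBall, dist_zero_right, Real.norm_eq_abs]
    exact hs.le
  have hpos : ∀ s, 0 < R ^ 2 - χ s * s ^ 2 := by
    intro s
    by_cases h : |s| < R / 2
    · have h1 : s ^ 2 < (R / 2) ^ 2 := by
        rw [← sq_abs s]
        exact pow_lt_pow_left₀ h (abs_nonneg s) two_ne_zero
      have h2 : χ s * s ^ 2 ≤ 1 * s ^ 2 := mul_le_mul_of_nonneg_right (hχ1 s) (sq_nonneg s)
      have h3 : 0 < R ^ 2 := by positivity
      nlinarith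
    · have h1 : χ s = 0 := by
        apply χ.zero_of_le_dist
        rw [dist_zero_right, Real.norm_eq_abs]
        exact not_lt.1 h
      rw [h1, zero_mul, sub_zero]
      positivity
  refine ⟨fun s => R - Real.sqrt (R ^ 2 - χ s * s ^ 2), ?_, ?_, ?_⟩
  · refine contDiff_const.sub (ContDiff.sqrt ?_ fun s => (hpos s).ne')
    exact contDiff_const.sub (χ.contDiff.mul (contDiff_id.pow 2))
  · intro s hs
    simp only [hχs s hs, one_mul]
  · have hnear : ∀ᶠ s in 𝓝 (0 : ℝ), |s| < R / 4 := by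
      have : Metric.ball (0 : ℝ) (R / 4) ∈ 𝓝 (0 : ℝ) := Metric.ball_mem_nhds _ (by positivity)
      filter_upwards [this] with s hs
      rwa [Metric.mem_ball, dist_zero_right, Real.norm_eq_abs] at hs
    have h1 : (fun s => R - Real.sqrt (R ^ 2 - χ s * s ^ 2)) =ᶠ[𝓝 0]
        fun s => R - Real.sqrt (R ^ 2 - s ^ 2) := by
      filter_upwards [hnear] with s hs
      rw [hχs s hs, one_mul]
    have h2 := h1.deriv
    have h3 : deriv (fun s => R - Real.sqrt (R ^ 2 - s ^ 2)) =ᶠ[𝓝 0]
        fun s => s / Real.sqrt (R ^ 2 - s ^ 2) := by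
      filter_upwards [hnear] with s hs
      have h4 : s ^ 2 < (R / 4) ^ 2 := by
        rw [← sq_abs s]
        exact pow_lt_pow_left₀ hs (abs_nonneg s) two_ne_zero
      have h5 : 0 < R ^ 2 - s ^ 2 := by nlinarith [sq_nonneg R]
      have h6 : HasDerivAt (fun s : ℝ => R ^ 2 - s ^ 2) (-(2 * s)) s := by
        have h := (hasDerivAt_pow 2 s).const_sub (R ^ 2)
        simpa using h
      have h7 : HasDerivAt (fun s : ℝ => R - Real.sqrt (R ^ 2 - s ^ 2))
          (-(-(2 * s) / (2 * Real.sqrt (R ^ 2 - s ^ 2)))) s := (h6.sqrt h5.ne').const_sub R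
      rw [h7.deriv]
      have h8 : 0 < Real.sqrt (R ^ 2 - s ^ 2) := Real.sqrt_pos.2 h5
      field_simp
    rw [(h2.trans h3).deriv_eq]
    have h9 : HasDerivAt (fun s : ℝ => R ^ 2 - s ^ 2) (-(2 * (0 : ℝ))) 0 := by
      have h := (hasDerivAt_pow 2 (0 : ℝ)).const_sub (R ^ 2)
      simpa using h
    have h10 : R ^ 2 - (0 : ℝ) ^ 2 ≠ 0 := by
      have : 0 < R ^ 2 := by positivity
      simpa using this.ne'
    have h11 := h9.sqrt h10
    have hs0 : Real.sqrt (R ^ 2 - (0 : ℝ) ^ 2) = R := by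
      rw [zero_pow two_ne_zero, sub_zero, Real.sqrt_sq hR.le]
    have h12 : HasDerivAt (fun s : ℝ => s / Real.sqrt (R ^ 2 - s ^ 2)) _ 0 :=
      (hasDerivAt_id (0 : ℝ)).div h11 (by rw [hs0]; exact hR.ne')
    have h13 : deriv (fun s => s / Real.sqrt (R ^ 2 - s ^ 2)) 0 = 1 / R := by
      rw [h12.deriv, hs0]
      simp only [id]
      field_simp
      ring
    rw [h13]
    positivity

/-- the module KF -/
theorem KF : KF_stmt := by
  intro Ω R hO hC
  obtain ⟨hR, hins, r0, hr0, hr0R, hring⟩ := hC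
  refine ⟨?_, ?_⟩
  · refine (Metric.isBounded_closedBall (x := (0 : ℝ × ℝ)) (r := R)).subset fun q hq => ?_
    have h1 := hins q hq
    rw [Metric.mem_closedBall, dist_zero_right, Prod.norm_def, Real.norm_eq_abs, Real.norm_eq_abs]
    refine max_le ?_ ?_
    · exact abs_le_of_sq_le_sq (by nlinarith [sq_nonneg q.2]) hR.le
    · exact abs_le_of_sq_le_sq (by nlinarith [sq_nonneg q.1]) hR.le
  · intro q hq
    have hq' : q.1 ^ 2 + q.2 ^ 2 = R ^ 2 := hq
    refine ⟨?_, ?_⟩
    · rw [hO.frontier_eq]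
      refine ⟨?_, fun h => absurd (hins q h) (by rw [hq']; exact lt_irrefl _)⟩
      have h1 : Tendsto (fun ε : ℝ => (1 - ε) • q) (𝓝[>] 0) (𝓝 q) := by
        have h2 : Continuous fun ε : ℝ => (1 - ε) • q := by fun_prop
        have h3 := h2.tendsto 0
        simp only [sub_zero, one_smul] at h3
        exact h3.mono_left nhdsWithin_le_nhds
      refine mem_closure_of_tendsto h1 ?_
      have h4 : Ioo (0 : ℝ) ((R - r0) / R) ∈ 𝓝[>] (0 : ℝ) :=
        Ioo_mem_nhdsGT (div_pos (by linarith) hR)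
      filter_upwards [h4] with ε hε
      obtain ⟨he1, he2⟩ := hε
      rw [lt_div_iff₀ hR] at he2
      apply hring
      show r0 ^ 2 < ((1 - ε) * q.1) ^ 2 + ((1 - ε) * q.2) ^ 2 ∧
        ((1 - ε) * q.1) ^ 2 + ((1 - ε) * q.2) ^ 2 < R ^ 2
      have h5 : ((1 - ε) * q.1) ^ 2 + ((1 - ε) * q.2) ^ 2 = ((1 - ε) * R) ^ 2 := by
        rw [mul_pow, mul_pow, mul_pow, ← hq']
        ring
      rw [h5]
      have h6 : r0 < (1 - ε) * R := by nlinarith
      have h7 : (1 - ε) * R < R := by nlinarith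
      exact ⟨pow_lt_pow_left₀ h6 hr0 two_ne_zero,
        pow_lt_pow_left₀ h7 (hr0.trans h6.le) two_ne_zero⟩
    · obtain ⟨f, hf1, hf2, hf3⟩ := KF_f R hR
      set z : ℂ := ⟨q.1, q.2⟩ with hz
      have hzn : ‖z‖ = R := by
        have h1 : ‖z‖ ^ 2 = R ^ 2 := by
          rw [← Complex.normSq_eq_norm_sq, Complex.normSq_apply, ← hq']
          simp only [hz]
          ring
        exact (pow_left_inj₀ (norm_nonneg _) hR.le two_ne_zero).1 h1
      set β := Complex.arg z with hβ
      have hq1 : q.1 = R * Real.cos β := by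
        rw [← hzn, hβ, Complex.norm_mul_cos_arg]
      have hq2 : q.2 = R * Real.sin β := by
        rw [← hzn, hβ, Complex.norm_mul_sin_arg]
      refine ⟨β + Real.pi / 2, min (R - r0) (R / 4), f, ⟨hf1, ?_, ?_, ?_⟩, hf3⟩
      · rw [hf2 0 (by rw [abs_zero]; positivity), zero_pow two_ne_zero, sub_zero,
          Real.sqrt_sq hR.le, sub_self]
      · exact lt_min (by linarith) (by positivity)
      · intro s r hs hr
        obtain ⟨hs1, hs2⟩ := lt_min_iff.1 hs
        obtain ⟨hr1, hr2⟩ := lt_min_iff.1 hr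
        rw [hf2 s hs2]
        have e1 : (pt (β + Real.pi / 2) q s r).1 ^ 2 + (pt (β + Real.pi / 2) q s r).2 ^ 2 =
            (R - r) ^ 2 + s ^ 2 := by
          unfold pt
          simp only [Real.cos_add_pi_div_two, Real.sin_add_pi_div_two, hq1, hq2]
          have h1 := Real.sin_sq_add_cos_sq β
          have h2 : Real.sin β ^ 2 = 1 - Real.cos β ^ 2 := by linarith
          ring_nf
          rw [h2]
          ring
        have h3 : 0 < R - r := by linarith [(abs_lt.1 hr2).2]
        have h4 : r0 < R - r := by linarith [(abs_lt.1 hr1).2]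
        constructor
        · intro h
          have h5 := hins _ h
          rw [e1] at h5
          have h6 : R - r < Real.sqrt (R ^ 2 - s ^ 2) := (Real.lt_sqrt h3.le).2 (by linarith)
          linarith
        · intro h
          have h6 : R - r < Real.sqrt (R ^ 2 - s ^ 2) := by linarith
          have h7 := (Real.lt_sqrt h3.le).1 h6
          apply hring
          show r0 ^ 2 < _ ∧ _ < R ^ 2
          rw [e1]
          constructor
          · nlinarith [sq_nonneg s]
          · linarith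

end NS
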