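import Pool.Agent.helper42.NS.Spec

set_option autoImplicit false

/-!
# Row ASY: the asymptotics
-/

namespace Pool.Agent.helper42.NS

open Filter

/-- numerical core: `x` is the logarithm of `n` -/
theorem ASY_core (n L m A : ℕ) (x : ℝ) (hx : 9 ≤ x) (hL : (L : ℝ) ≤ 2 * x)
    (hA : A = (12 * L + 9) ^ 2) (hm : m = n / A - 2) (hbig : 10 ^ 11 * x ^ 6 ≤ (n : ℝ)) :
    (12 * L + 9) ^ 2 * (m + 2) ≤ n ∧
    1 / 12500000 * (n : ℝ) ^ 2 / x ^ 4 + (1 + n * A + L * n) ≤ ((m.choose 2 : ℕ) : ℝ) := by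
  have hx0 : 0 < x := by linarith
  have hn0 : (0 : ℝ) ≤ n := Nat.cast_nonneg n
  have hL0 : (0 : ℝ) ≤ L := Nat.cast_nonneg L
  have hA0 : 0 < A := by rw [hA]; positivity
  have hAR0 : (0 : ℝ) < A := by exact_mod_cast hA0
  have hAR : (A : ℝ) ≤ 625 * x ^ 2 := by
    rw [hA]
    push_cast
    have h1 : 12 * (L : ℝ) + 9 ≤ 25 * x := by linarith
    have h2 : (12 * (L : ℝ) + 9) ^ 2 ≤ (25 * x) ^ 2 := pow_le_pow_left₀ (by linarith) h1 2
    linarith [h2, mul_pow 25 x 2]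
  have hx2 : 81 ≤ x ^ 2 := by nlinarith
  have hx4 : 1 ≤ x ^ 4 := by nlinarith [sq_nonneg (x ^ 2 - 1)]
  have hdiv1 : (n : ℝ) < A * ((n / A : ℕ) + 1) := by
    exact_mod_cast Nat.lt_mul_div_succ n hA0
  have hdiv2 : (n : ℝ) / (625 * x ^ 2) ≤ (n / A : ℕ) + 1 := by
    have h1 : (n : ℝ) / A ≤ (n / A : ℕ) + 1 := by
      rw [div_le_iff₀ hAR0]; linarith
    have h2 : (n : ℝ) / (625 * x ^ 2) ≤ n / A := div_le_div_of_nonneg_left hn0 hAR0 hAR
    linarith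
  have hq : (1000 : ℝ) ≤ n / (1250 * x ^ 2) := by
    rw [le_div_iff₀ (by positivity)]
    have : 1000 * (1250 * x ^ 2) ≤ 10 ^ 11 * x ^ 6 := by
      have h6 : x ^ 6 = x ^ 2 * x ^ 4 := by ring
      rw [h6]
      nlinarith [mul_le_mul_of_nonneg_left hx4 (by positivity : (0 : ℝ) ≤ x ^ 2)]
    linarith
  have hhalf : (n : ℝ) / (625 * x ^ 2) = 2 * (n / (1250 * x ^ 2)) := by
    field_simp
    ring
  have hge : (1000 : ℕ) ≤ n / A := by
    have h1 : (1000 : ℝ) ≤ ((n / A : ℕ) : ℝ) := by linarith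
    exact_mod_cast h1
  have hm2 : m + 2 = n / A := by omega
  refine ⟨?_, ?_⟩
  · rw [hm2, ← hA]
    exact Nat.mul_div_le n A
  · have hmR : ((m : ℕ) : ℝ) + 2 = ((n / A : ℕ) : ℝ) := by exact_mod_cast hm2
    have hmge : (n : ℝ) / (1250 * x ^ 2) ≤ m := by linarith
    have hm1 : (1000 : ℝ) ≤ m := by linarith
    rw [Nat.cast_choose_two]
    have h1 : ((n : ℝ) / (1250 * x ^ 2)) ^ 2 ≤ (m : ℝ) ^ 2 :=
      pow_le_pow_left₀ (by linarith) hmge 2
    have h2 : (m : ℝ) ^ 2 / 4 ≤ (m : ℝ) * (m - 1) / 2 := by nlinarith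
    have h3 : ((n : ℝ) / (1250 * x ^ 2)) ^ 2 / 4 = 2 * (1 / 12500000 * (n : ℝ) ^ 2 / x ^ 4) := by
      field_simp
      ring
    have h4 : 1 + (n : ℝ) * A + L * n ≤ 1 / 12500000 * (n : ℝ) ^ 2 / x ^ 4 := by
      have h5 : 1 + (n : ℝ) * A + L * n ≤ 628 * n * x ^ 2 := by
        have h6 : (n : ℝ) * A ≤ n * (625 * x ^ 2) := mul_le_mul_of_nonneg_left hAR hn0
        have h7 : (L : ℝ) * n ≤ (2 * x) * n := mul_le_mul_of_nonneg_right hL hn0
        have h8 : 2 * x * n ≤ 2 * n * x ^ 2 := by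
          have : x ≤ x ^ 2 := by nlinarith
          nlinarith [mul_le_mul_of_nonneg_left this hn0]
        have h9 : (1 : ℝ) ≤ n * x ^ 2 := by
          have h10 : (1 : ℝ) ≤ n := by
            have : (1 : ℝ) ≤ 10 ^ 11 * x ^ 6 := by
              have h6 : x ^ 6 = x ^ 2 * x ^ 4 := by ring
              rw [h6]
              nlinarith [mul_le_mul_of_nonneg_left hx4 (by positivity : (0 : ℝ) ≤ x ^ 2)]
            linarith
          nlinarith
        nlinarith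
      refine le_trans h5 ?_
      rw [le_div_iff₀ (by positivity)]
      have h6 : 628 * (n : ℝ) * x ^ 2 * x ^ 4 = n * (628 * x ^ 6) := by ring
      rw [h6]
      have h7 : 628 * x ^ 6 ≤ 1 / 12500000 * n := by linarith
      calc (n : ℝ) * (628 * x ^ 6) ≤ n * (1 / 12500000 * n) := mul_le_mul_of_nonneg_left h7 hn0
        _ = 1 / 12500000 * (n : ℝ) ^ 2 := by ring
    linarith

theorem ASY_one (σ : ℕ → ℕ)
    (h : ∀ (m L n : ℕ), 1 ≤ L → m ≤ 2 ^ L → (12 * L + 9) ^ 2 * (m + 2) ≤ n →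
      2 ^ (m.choose 2) ≤ 2 * σ n * 2 ^ (n * (12 * L + 9) ^ 2) * m.factorial)
    (n : ℕ) (hn : 1 ≤ n) (hx : 9 ≤ Real.log n) (hbig : 10 ^ 11 * (Real.log n) ^ 6 ≤ (n : ℝ)) :
    (2 : ℝ) ^ (1 / 12500000 * (n : ℝ) ^ 2 / (Real.log n) ^ 4) ≤ (σ n : ℝ) := by
  set x := Real.log n with hxdef
  set L := Nat.log 2 n + 1 with hLdef
  set A := (12 * L + 9) ^ 2 with hAdef
  set m := n / A - 2 with hmdef
  have hnR : (0 : ℝ) < n := by exact_mod_cast hn
  have hlog : (Nat.log 2 n : ℝ) * Real.log 2 ≤ x := by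
    have h1 : 2 ^ Nat.log 2 n ≤ n := Nat.pow_log_le_self 2 (by omega)
    have h2 : ((2 : ℝ)) ^ Nat.log 2 n ≤ n := by exact_mod_cast h1
    have h3 := Real.log_le_log (by positivity) h2
    rwa [Real.log_pow] at h3
  have hL : (L : ℝ) ≤ 2 * x := by
    rw [hLdef]
    push_cast
    have h1 := Real.log_two_gt_d9
    have h2 : (0 : ℝ) ≤ Nat.log 2 n := Nat.cast_nonneg _
    nlinarith
  obtain ⟨h1, h2⟩ := ASY_core n L m A x hx hL hAdef hmdef hbig
  have hnL : n < 2 ^ L := Nat.lt_pow_succ_log_self (by norm_num) n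
  have hmn : m ≤ n := by
    rw [hmdef]
    exact le_trans (Nat.sub_le _ _) (Nat.div_le_self _ _)
  have hmL : m ≤ 2 ^ L := by omega
  have h3 := h m L n (by omega) hmL h1
  rw [← hAdef] at h3
  have h4 : m.factorial ≤ 2 ^ (L * n) := by
    calc m.factorial ≤ m ^ m := Nat.factorial_le_pow m
      _ ≤ (2 ^ L) ^ m := Nat.pow_le_pow_left hmL m
      _ ≤ (2 ^ L) ^ n := Nat.pow_le_pow_right (Nat.pow_pos (by norm_num)) hmn
      _ = 2 ^ (L * n) := (pow_mul 2 L n).symm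
  have h5 : 2 ^ (m.choose 2) ≤ σ n * 2 ^ (1 + n * A + L * n) := by
    calc 2 ^ (m.choose 2) ≤ 2 * σ n * 2 ^ (n * A) * m.factorial := h3
      _ ≤ 2 * σ n * 2 ^ (n * A) * 2 ^ (L * n) := Nat.mul_le_mul_left _ h4
      _ = σ n * 2 ^ (1 + n * A + L * n) := by rw [pow_add, pow_add]; ring
  have h6 : (2 : ℝ) ^ (m.choose 2) ≤ (σ n : ℝ) * (2 : ℝ) ^ (1 + n * A + L * n) := by
    exact_mod_cast h5
  have h7 : (2 : ℝ) ^ (1 / 12500000 * (n : ℝ) ^ 2 / x ^ 4) * (2 : ℝ) ^ (1 + n * A + L * n) ≤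
      (2 : ℝ) ^ (m.choose 2) := by
    rw [← Real.rpow_natCast (2 : ℝ) (1 + n * A + L * n), ← Real.rpow_natCast (2 : ℝ) (m.choose 2),
      ← Real.rpow_add (by norm_num)]
    apply Real.rpow_le_rpow_of_exponent_le (by norm_num)
    push_cast
    exact h2
  have h8 := le_trans h7 h6
  exact le_of_mul_le_mul_right h8 (by positivity)

theorem ASY : ASY_stmt := by
  intro σ h
  refine ⟨1 / 12500000, by norm_num, ?_⟩
  have e1 : ∀ᶠ n : ℕ in atTop, 9 ≤ Real.log n :=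
    (Real.tendsto_log_atTop.comp tendsto_natCast_atTop_atTop).eventually_ge_atTop 9
  have e2 : ∀ᶠ n : ℕ in atTop, 10 ^ 11 * (Real.log n) ^ 6 ≤ (n : ℝ) := by
    have h1 := (Real.isLittleO_pow_log_id_atTop (n := 6)).bound
      (show (0 : ℝ) < 1 / 10 ^ 11 by norm_num)
    have h2 := tendsto_natCast_atTop_atTop (R := ℝ) |>.eventually h1
    filter_upwards [h2, e1] with n hn hn9
    have h3 : (0 : ℝ) ≤ Real.log n := by linarith
    simp only [id, Real.norm_eq_abs] at hn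
    rw [abs_of_nonneg (pow_nonneg h3 6), abs_of_nonneg (Nat.cast_nonneg n)] at hn
    linarith
  have e3 : ∀ᶠ n : ℕ in atTop, 1 ≤ n := eventually_ge_atTop 1
  obtain ⟨n₀, hn₀⟩ := ((e1.and e2).and e3).exists_forall_of_atTop
  exact ⟨n₀, fun n hn => ASY_one σ h n (hn₀ n hn).2 (hn₀ n hn).1.1 (hn₀ n hn).1.2⟩

end Pool.Agent.helper42.NS
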